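import Pool.Agent.Helper45.LGB.St2
import Pool.Agent.Helper63.RB.M_ABN

/-!
# Project LGB, module ABE: the linearised Engel identity modulo an abelian section
-/

set_option autoImplicit false

namespace Pool.Agent.Helper97.LGB

open Pool.Agent.Helper45.LGB Pool.Agent.Helper83.RB
open scoped commutatorElement

/-- iterated commutators and homomorphisms -/
private theorem ic_map {G H : Type} [Group G] [Group H] (f : G →* H) (u : List G) :
    ∀ v : G, f (ic v u) = ic (f v) (u.map f) := by
  induction u with
  | nil => intro v; rfl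
  | cons a u ih =>
    intro v
    have e1 : ic v (a :: u) = ic ⁅v, a⁆ u := rfl
    have e2 : ic (f v) ((a :: u).map f) = ic ⁅f v, f a⁆ (u.map f) := rfl
    rw [e1, e2, ih, map_commutatorElement]

/-- products of negatives -/
private theorem prod_neg' {A ι : Type} [Ring A] (x y : ι → A) (h : ∀ i, x i = -(y i)) (l : List ι) :
    (l.map x).prod = ((-1 : ℤ) ^ l.length) • (l.map y).prod := by
  induction l with
  | nil => simp
  | cons a l ih =>
    rw [List.map_cons, List.prod_cons, ih, h a, List.map_cons, List.prod_cons, List.length_cons, pow_succ,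
      mul_smul_comm, neg_mul, mul_neg_one, neg_smul, smul_neg]

/-- reversal of a list given by a function -/
private theorem rev_ofFn {A : Type} {n : ℕ} (f : Fin n → A) :
    (List.ofFn f).reverse = List.ofFn (fun i => f (Fin.rev i)) := by
  apply List.ext_getElem
  · simp
  · intro i h1 h2
    simp only [List.getElem_reverse, List.getElem_ofFn, List.length_ofFn]
    congr 1
    apply Fin.ext
    simp only [Fin.val_rev]
    omega

/-- the case of an abelian normal subgroup -/
private theorem core (hPOL : StPOL) (p : ℕ) [Fact p.Prime] {Q : Type} [Group Q] (hexp : ∀ g : Q, g ^ p = 1)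
    (V : Subgroup Q) [V.Normal] (hV : ∀ x ∈ V, ∀ y ∈ V, x * y = y * x) (w : V) (q : Fin (p - 1) → Q) :
    ∃ z ∈ Subgroup.closure {h : Q | ∃ u : List (Fin (p - 1)), p - 1 < u.length ∧
        (∀ i, i ∈ u) ∧ h = ic (w : Q) (u.map q)},
      ((Finset.univ : Finset (Equiv.Perm (Fin (p - 1)))).toList.map fun σ =>
        ic (w : Q) (List.ofFn fun i => q (σ i))).prod * z = 1 := by
  obtain ⟨A, _, ρ, act, hinj, h0, h1, hmul, hadd, hneg, -, -, -, hρ⟩ :=
    Pool.Agent.Helper63.RB.exists_rho V hV
  have hsub : ∀ a b v, act (a - b) v = act a v * (act b v)⁻¹ := by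
    intro a b v
    rw [sub_eq_add_neg, hadd, hneg]
  have hcast : ∀ (n : ℕ) (v : V), act (n : A) v = v ^ n := by
    intro n v
    induction n with
    | zero => rw [Nat.cast_zero, h0, pow_zero]
    | succ n ih => rw [Nat.cast_succ, hadd, ih, h1, pow_succ]
  have hp0 : (p : A) = 0 := by
    apply hinj
    intro v
    rw [hcast]
    exact Subtype.ext (by simpa using hexp (v : Q))
  have hpow : ∀ g, (ρ g - 1) ^ (p - 1) = 0 := by
    intro g
    rw [Pool.Agent.Helper63.RB.geom_eq_pow p hp0]
    apply hinj
    intro v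
    have key : ∀ n : ℕ, ((act (∑ i ∈ Finset.range n, ρ g ^ i) v : V) : Q) * g ^ n
        = ((v : Q) * g) ^ n := by
      intro n
      induction n with
      | zero => rw [Finset.range_zero, Finset.sum_empty, h0]; simp
      | succ n ih =>
        rw [Finset.sum_range_succ, hadd, ← map_pow, Subgroup.coe_mul, hρ, pow_succ ((v : Q) * g),
          ← ih, pow_succ g]
        group
    have h := key p
    rw [hexp, hexp, mul_one] at h
    exact Subtype.ext (by simpa using h)
  obtain ⟨x, hx⟩ : ∃ x : Fin (p - 1) → A, x = fun j => ρ (q j) - 1 := ⟨_, rfl⟩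
  obtain ⟨y, hy⟩ : ∃ y : Fin (p - 1) → A, y = fun j => 1 - ρ (q j) := ⟨_, rfl⟩
  have hxy : ∀ j, x j = -(y j) := fun j => by rw [hx, hy]; exact (neg_sub _ _).symm
  -- words
  have hic : ∀ (u : List (Fin (p - 1))) (v : V),
      ((act ((u.map y).reverse.prod) v : V) : Q) = ic (v : Q) (u.map q) := by
    intro u
    induction u with
    | nil =>
      intro v
      rw [List.map_nil, List.reverse_nil, List.prod_nil, h1]
      rfl
    | cons j u ih =>
      intro v
      have e1 : ic (v : Q) ((j :: u).map q) = ic ⁅(v : Q), q j⁆ (u.map q) := rfl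
      have e2 : ((act (y j) v : V) : Q) = ⁅(v : Q), q j⁆ := by
        rw [hy]
        show ((act (1 - ρ (q j)) v : V) : Q) = _
        rw [hsub, h1, Subgroup.coe_mul, Subgroup.coe_inv, hρ, commutatorElement_def]
        group
      rw [List.map_cons, List.reverse_cons, List.prod_append, List.prod_singleton, hmul, ih, e2, e1]
  -- the additive subgroup
  let S : Set Q := {h : Q | ∃ u : List (Fin (p - 1)), p - 1 < u.length ∧
        (∀ i, i ∈ u) ∧ h = ic (w : Q) (u.map q)}
  let T : AddSubgroup A :=
    { carrier := {a | ((act a w : V) : Q) ∈ Subgroup.closure S}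
      add_mem' := fun {a b} ha hb => by
        show ((act (a + b) w : V) : Q) ∈ Subgroup.closure S
        rw [hadd, Subgroup.coe_mul]
        exact (Subgroup.closure S).mul_mem ha hb
      zero_mem' := by
        show ((act 0 w : V) : Q) ∈ Subgroup.closure S
        rw [h0]
        exact (Subgroup.closure S).one_mem
      neg_mem' := fun {a} ha => by
        show ((act (-a) w : V) : Q) ∈ Subgroup.closure S
        rw [hneg, Subgroup.coe_inv]
        exact (Subgroup.closure S).inv_mem ha }
  have hT : ∀ a : A, a ∈ T ↔ ((act a w : V) : Q) ∈ Subgroup.closure S := fun a => Iff.rfl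
  have hP := hPOL A (p - 1) x (fun s => by
    have e : ∀ l : List (Fin (p - 1)), (l.map fun i => 1 + x i).prod = ρ ((l.map q).prod) := by
      intro l
      induction l with
      | nil => simp
      | cons a l ih =>
        rw [List.map_cons, List.prod_cons, ih, List.map_cons, List.prod_cons, map_mul, hx]
        congr 1
        exact add_sub_cancel _ _
    rw [e]
    exact hpow _)
  have hle : AddSubgroup.closure {z : A | ∃ w : List (Fin (p - 1)),
        p - 1 < w.length ∧ (∀ i, i ∈ w) ∧ z = (w.map x).prod} ≤ T := by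
    rw [AddSubgroup.closure_le]
    rintro z ⟨u, hu, hu', rfl⟩
    rw [SetLike.mem_coe, prod_neg' x y hxy]
    apply T.zsmul_mem
    rw [hT]
    apply Subgroup.subset_closure
    refine ⟨u.reverse, by rw [List.length_reverse]; exact hu, fun i => List.mem_reverse.2 (hu' i), ?_⟩
    rw [← hic, List.map_reverse, List.reverse_reverse]
  have hP1 := hle hP
  have hP2 : ∑ σ : Equiv.Perm (Fin (p - 1)), (List.ofFn fun i => y (σ i)).prod ∈ T := by
    have e1 : ∀ σ : Equiv.Perm (Fin (p - 1)), (List.ofFn fun i => x (σ i)).prod =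
        ((-1 : ℤ) ^ (p - 1)) • (List.ofFn fun i => y (σ i)).prod := by
      intro σ
      have a1 : (List.ofFn fun i => x (σ i)) = (List.ofFn fun i => σ i).map x := by
        rw [List.map_ofFn]; rfl
      have a2 : (List.ofFn fun i => y (σ i)) = (List.ofFn fun i => σ i).map y := by
        rw [List.map_ofFn]; rfl
      rw [a1, a2, prod_neg' x y hxy, List.length_ofFn]
    rw [Finset.sum_congr rfl fun σ _ => e1 σ, ← Finset.smul_sum] at hP1
    have e2 := T.zsmul_mem hP1 ((-1 : ℤ) ^ (p - 1))
    rw [smul_smul, ← mul_pow] at e2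
    simpa using e2
  have hP3 : ∑ σ : Equiv.Perm (Fin (p - 1)), (List.ofFn fun i => y (σ i)).reverse.prod ∈ T := by
    have e : ∑ σ : Equiv.Perm (Fin (p - 1)), (List.ofFn fun i => y (σ i)).reverse.prod =
        ∑ σ : Equiv.Perm (Fin (p - 1)), (List.ofFn fun i => y (σ i)).prod := by
      refine Fintype.sum_equiv (Equiv.mulRight Fin.revPerm) _ _ fun σ => ?_
      rw [rev_ofFn]
      rfl
    rw [e]
    exact hP2
  have hlist : ∀ (l : List (Equiv.Perm (Fin (p - 1)))),
      ((act (l.map fun σ => (List.ofFn fun i => y (σ i)).reverse.prod).sum w : V) : Q) =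
        (l.map fun σ => ic (w : Q) (List.ofFn fun i => q (σ i))).prod := by
    intro l
    induction l with
    | nil => rw [List.map_nil, List.sum_nil, h0]; rfl
    | cons σ l ih =>
      have a1 : (List.ofFn fun i => q (σ i)) = (List.ofFn fun i => σ i).map q := by
        rw [List.map_ofFn]; rfl
      have a2 : (List.ofFn fun i => y (σ i)) = (List.ofFn fun i => σ i).map y := by
        rw [List.map_ofFn]; rfl
      rw [List.map_cons, List.sum_cons, hadd, Subgroup.coe_mul, ih, List.map_cons, List.prod_cons, a2, hic, a1]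
  refine ⟨((act (-∑ σ : Equiv.Perm (Fin (p - 1)), (List.ofFn fun i => y (σ i)).reverse.prod) w : V) : Q),
    (hT _).1 (T.neg_mem hP3), ?_⟩
  rw [← hlist, ← Finset.sum_map_toList, hneg, Subgroup.coe_inv, mul_inv_cancel]

/-- ABE: the linearised Engel identity modulo an abelian section -/
theorem hABE (hPOL : StPOL) : StABE := by
  intro p _ K _ hexp A B C hBA hAC hA hB hAB v g hv hg
  obtain ⟨B', hB'⟩ : ∃ B' : Subgroup C, B' = B.subgroupOf C := ⟨_, rfl⟩
  haveI n1 : B'.Normal := ⟨fun b hb c => by
    rw [hB', Subgroup.mem_subgroupOf] at hb ⊢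
    exact hB c c.2 b hb⟩
  haveI n2 : (A.subgroupOf C).Normal := ⟨fun b hb c => by
    rw [Subgroup.mem_subgroupOf] at hb ⊢
    exact hA c c.2 b hb⟩
  let π : C →* C ⧸ B' := QuotientGroup.mk' B'
  haveI n3 : ((A.subgroupOf C).map π).Normal := n2.map π (QuotientGroup.mk'_surjective B')
  have hexpQ : ∀ x : C ⧸ B', x ^ p = 1 := by
    intro x
    obtain ⟨c, rfl⟩ := QuotientGroup.mk'_surjective B' x
    rw [← map_pow, show c ^ p = 1 from Subtype.ext (by simpa using hexp (c : K)), map_one]
  have hVc : ∀ x ∈ (A.subgroupOf C).map π, ∀ y ∈ (A.subgroupOf C).map π, x * y = y * x := by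
    rintro x ⟨a, ha, rfl⟩ y ⟨b, hb, rfl⟩
    rw [← commutatorElement_eq_one_iff_mul_comm, ← map_commutatorElement]
    refine (QuotientGroup.eq_one_iff _).2 ?_
    rw [hB', Subgroup.mem_subgroupOf]
    exact hAB a ha b hb
  let v' : C := ⟨v, hAC hv⟩
  let g' : Fin (p - 1) → C := fun j => ⟨g j, hg j⟩
  have hv' : π v' ∈ (A.subgroupOf C).map π := ⟨v', hv, rfl⟩
  obtain ⟨z, hz, e⟩ := core hPOL p hexpQ ((A.subgroupOf C).map π) hVc ⟨π v', hv'⟩ (fun j => π (g' j))
  -- lift
  let SC : Set C := {h : C | ∃ u : List (Fin (p - 1)), p - 1 < u.length ∧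
        (∀ i, i ∈ u) ∧ h = ic v' (u.map g')}
  have hz1 : z ∈ (Subgroup.closure SC).map π := by
    refine (Subgroup.closure_le _).2 ?_ hz
    rintro h ⟨u, hu, hu', rfl⟩
    refine ⟨ic v' (u.map g'), Subgroup.subset_closure ⟨u, hu, hu', rfl⟩, ?_⟩
    rw [ic_map, List.map_map]
    rfl
  obtain ⟨z', hz', rfl⟩ := hz1
  refine ⟨(z' : K), ?_, ?_⟩
  · have : (Subgroup.closure SC) ≤ (Subgroup.closure {h : K | ∃ u : List (Fin (p - 1)), p - 1 < u.length ∧
        (∀ i, i ∈ u) ∧ h = ic v (u.map g)}).comap C.subtype := by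
      rw [Subgroup.closure_le]
      rintro h ⟨u, hu, hu', rfl⟩
      refine Subgroup.subset_closure ⟨u, hu, hu', ?_⟩
      rw [ic_map, List.map_map]
      rfl
    exact this hz'
  · have e1 : ((Finset.univ : Finset (Equiv.Perm (Fin (p - 1)))).toList.map fun σ =>
        ic v (List.ofFn fun i => g (σ i))).prod =
        (((((Finset.univ : Finset (Equiv.Perm (Fin (p - 1)))).toList.map fun σ =>
        ic v' (List.ofFn fun i => g' (σ i))).prod : C)) : K) := by
      rw [← Subgroup.coe_subtype, map_list_prod, List.map_map]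
      congr 1
      refine List.map_congr_left fun σ _ => ?_
      rw [Function.comp_apply, ic_map, List.map_ofFn]
      rfl
    have e2 : π ((((Finset.univ : Finset (Equiv.Perm (Fin (p - 1)))).toList.map fun σ =>
        ic v' (List.ofFn fun i => g' (σ i))).prod) * z') = 1 := by
      rw [map_mul, map_list_prod, List.map_map, ← e]
      congr 2
      refine List.map_congr_left fun σ _ => ?_
      rw [Function.comp_apply, ic_map, List.map_ofFn]
      rfl
    have e3 := (QuotientGroup.eq_one_iff _).1 e2
    rw [hB', Subgroup.mem_subgroupOf] at e3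
    rw [e1]
    exact e3

end Pool.Agent.Helper97.LGB
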